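import Pool.Agent.Lib_MP_6050fa_q.Exps
import Pool.Agent.Lib_MP_6050fa_q.Cls

/-!
# MP_6050fa_nt: the equation `x ^ n + n = y ^ m` with `y` odd

Write `x ^ n = A B ^ 2` with `A` squarefree (`A = 1` if `n` is even), and let
`I = (y, A B + √(-n A))` in `ℤ[√(-n A)]`.  If `x` and `n` are coprime, then `I ^ (2 m)` is principal,
and the odd part `m₁` of `m` divides every `t ≥ 1` for which `I ^ t` is principal.  So `m₁` divides
the class number of `ℤ[√(-n A)]`.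

* `Lib_MP_6050fa_q.Red`: if `q = 2 K + 1` is an odd prime divisor of `m` and `I ^ (2 m / q)` is
  principal, then `x ^ n = T W ^ 2`, `U = ± 1`, where `T = A a ^ 2` and
  `(√T + √(-n)) ^ q = √T W + √(-n) U`.
* `Odd`, `EvenA`, `EvenB`, `EvenC`: this is impossible.
* `Main`: the order of `I`; `Prim`: primitive reduced forms; `Exps`: thirty-two exponents `n`.
-/

set_option autoImplicit false

namespace Pool.Agent.Results.MP_6050fa_nt.ClassOrder

open Pool.Agent.Lib_MP_6050fa_q Zsqrtd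

/-- the ideal `(y, A B + √(-n A))` of `ℤ[√(-n A)]` -/
def I (n y A B : ℕ) : Ideal (ℤ√(-((n * A : ℕ) : ℤ))) :=
  Ideal.span {((y : ℤ) : ℤ√(-((n * A : ℕ) : ℤ))), ⟨(A : ℤ) * B, 1⟩}

theorem sqf_one {x n A B : ℕ} (hx : 2 ≤ x) (hA : Squarefree A) (hAB : x ^ n = A * B ^ 2)
    (hn : Even n) : A = 1 := by
  obtain ⟨k, hk⟩ := hn
  have h1 : (x ^ k) ^ 2 = A * B ^ 2 := by rw [← hAB, ← pow_mul, hk]; congr 1; ring
  have hB0 : B ≠ 0 := by
    rintro rfl
    have : 0 < x ^ n := by positivity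
    rw [hAB] at this
    simp at this
  obtain ⟨C, hC⟩ : B ∣ x ^ k := by
    rw [← Nat.pow_dvd_pow_iff two_ne_zero, h1]
    exact dvd_mul_left _ _
  have h2 : C * C = A := by
    rw [hC] at h1
    have h3 : B ^ 2 * (C * C) = B ^ 2 * A := by linarith
    exact Nat.eq_of_mul_eq_mul_left (by positivity) h3
  have h3 : IsUnit C := hA C ⟨1, by rw [h2, mul_one]⟩
  rw [Nat.isUnit_iff] at h3
  rw [← h2, h3]

theorem part1 {x n y m A B k m1 : ℕ} (hx : 2 ≤ x) (hn : 3 ≤ n) (hyo : Odd y) (hm : 2 ≤ m)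
    (h : x ^ n + n = y ^ m) (hA : Squarefree A) (hAB : x ^ n = A * B ^ 2) (hk : m = 2 ^ k * m1)
    (hm1 : Odd m1) :
    (∃ p e n' : ℕ, p.Prime ∧ p ∣ x ∧ 1 ≤ e ∧ n = p ^ (m * e) * n' ∧ ¬ p ∣ n') ∨
      (Nat.Coprime x n ∧
        (∀ t : ℕ, 0 < t → (∃ γ, I n y A B ^ t = Ideal.span {γ}) → m1 ∣ t) ∧
        (∃ _ : IsDomain (ℤ√(-((n * A : ℕ) : ℤ))),
          m1 ∣ Nat.card (ClassGroup (ℤ√(-((n * A : ℕ) : ℤ))))) ∧
        (m1 : ℝ) ≤ Real.sqrt (4 * (n * A) / 3) * (1 + Real.log (4 * (n * A) / 3) / 2) ^ 2 ∧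
        (Even n → A = 1 ∧ m1 = m)) := by
  by_cases hb : ∃ p e n' : ℕ, p.Prime ∧ p ∣ x ∧ 1 ≤ e ∧ n = p ^ (m * e) * n' ∧ ¬ p ∣ n'
  · exact Or.inl hb
  right
  have hy : 2 ≤ y := by
    by_contra h1
    have h2 : y = 1 := by
      obtain ⟨w, hw⟩ := hyo
      omega
    rw [h2, one_pow] at h
    omega
  have hcop : Nat.Coprime x n := by
    by_contra hc
    obtain ⟨p, hp, hpx, hpn⟩ := Nat.Prime.not_coprime_iff_dvd.1 hc
    obtain ⟨e, n', h1, h2, h3⟩ := common' (by omega) hy h hp hpx hpn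
    exact hb ⟨p, e, n', hp, hpx, h1, h2, h3⟩
  have hA0 : 0 < A := Nat.pos_of_ne_zero hA.ne_zero
  have hN0 : 0 < n * A := Nat.mul_pos (by omega) hA0
  have hord : ∀ t : ℕ, 0 < t → (∃ γ, I n y A B ^ t = Ideal.span {γ}) → m1 ∣ t :=
    fun t ht hp => order_dvd hx hn hyo hy hm h hcop hAB hA hk hm1 ht hp
  refine ⟨hcop, hord, ⟨Lib_MP_6050fa.dom hN0, ?_⟩, ?_, ?_⟩
  · have := Lib_MP_6050fa.dom hN0
    obtain ⟨h1, h2, h3⟩ := conds hx hn hyo (by omega) h hcop hAB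
    obtain ⟨-, hI⟩ := ideal_eq (N := n * A) (n := (n : ℤ)) (m := m) (y := y) (A := (A : ℤ))
      (B := (B : ℤ)) (by omega) (by push_cast; ring) h1 h2 h3
    refine class_dvd (I := I n y A B) (E := 2 * m) (by omega) ?_ hI hord
    intro h0
    have h4 := congrArg Zsqrtd.re h0
    have h5 := congrArg Zsqrtd.im h0
    simp only [re_zero, im_zero] at h4 h5
    have h6 : (B : ℤ) = 0 := by omega
    rw [h6] at h4
    have h7 : (y : ℤ) ^ m = 0 := by linarith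
    have h8 : (y : ℤ) = 0 := pow_eq_zero_iff (by omega) |>.1 h7
    omega
  · have h1 := (le_card hx hn hyo hy hm h hcop hAB hA hk hm1).trans
      (Finset.card_le_card (P_sub (n := n * A)))
    refine le_trans (by exact_mod_cast h1)
      ((Lib_MP_6050fa.card_S_le (N := n * A) (by omega)).trans (le_of_eq ?_))
    push_cast
    rfl
  · intro hne
    refine ⟨sqf_one hx hA hAB hne, ?_⟩
    have hmn := Lib_MP_6050fa.coprime_exponents hx (by omega) hy hm (Or.inr h)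
    have hmo : ¬ 2 ∣ m := by
      intro h3
      have h4 := Nat.dvd_gcd h3 hne.two_dvd
      rw [hmn] at h4
      omega
    rcases Nat.eq_zero_or_pos k with h3 | h3
    · rw [hk, h3, pow_zero, one_mul]
    · exfalso
      apply hmo
      rw [hk]
      exact Dvd.dvd.mul_right (dvd_pow_self 2 h3.ne') _

/-- **Result.**  (1) Let `x, m ≥ 2`, `n ≥ 3`, `x ^ n + n = y ^ m`, `y` odd, `x ^ n = A B ^ 2` with `A`
squarefree, `m = 2 ^ k m₁` with `m₁` odd.  Then either `n = p ^ (m e) n'` with a prime `p ∣ x`,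
`p ∤ n'`, `e ≥ 1`; or `x` and `n` are coprime, `m₁` divides every `t ≥ 1` for which
`(y, A B + √(-n A)) ^ t` is a principal ideal of `ℤ[√(-n A)]`, `m₁` divides the class number of
`ℤ[√(-n A)]`, `m₁ ≤ √(4 n A / 3) (1 + log (4 n A / 3) / 2) ^ 2`, and `A = 1`, `m₁ = m` if `n` is even.
(2) For thirty-two even exponents `n` there is no solution. -/
theorem result :
    (∀ x n y m A B k m1 : ℕ, 2 ≤ x → 3 ≤ n → Odd y → 2 ≤ m → x ^ n + n = y ^ m → Squarefree A →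
      x ^ n = A * B ^ 2 → m = 2 ^ k * m1 → Odd m1 →
      (∃ p e n' : ℕ, p.Prime ∧ p ∣ x ∧ 1 ≤ e ∧ n = p ^ (m * e) * n' ∧ ¬ p ∣ n') ∨
        (Nat.Coprime x n ∧
          (∀ t : ℕ, 0 < t → (∃ γ, I n y A B ^ t = Ideal.span {γ}) → m1 ∣ t) ∧
          (∃ _ : IsDomain (ℤ√(-((n * A : ℕ) : ℤ))),
            m1 ∣ Nat.card (ClassGroup (ℤ√(-((n * A : ℕ) : ℤ))))) ∧
          (m1 : ℝ) ≤ Real.sqrt (4 * (n * A) / 3) * (1 + Real.log (4 * (n * A) / 3) / 2) ^ 2 ∧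
          (Even n → A = 1 ∧ m1 = m))) ∧
      (∀ x n y m : ℕ, 2 ≤ x → 2 ≤ y → 2 ≤ m →
        n ∈ ({6, 10, 12, 16, 18, 22, 24, 28, 30, 36, 42, 48, 58, 60, 70, 72, 78, 102, 112, 120, 130,
          168, 190, 210, 240, 312, 330, 408, 462, 840, 1320, 1848} : Finset ℕ) →
          x ^ n + n ≠ y ^ m) :=
  ⟨fun _ _ _ _ _ _ _ _ hx hn hyo hm h hA hAB hk hm1 => part1 hx hn hyo hm h hA hAB hk hm1,
    fun _ _ _ _ hx hy hm hn => no_sol hx hy hm hn⟩

end Pool.Agent.Results.MP_6050fa_nt.ClassOrder
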