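import Mathlib

/-!
MP_6050fa_nt.  The equation `x ^ n - n = y ^ m` with `m` even.

Put `Y = y ^ (m / 2)`, so that `Y ^ 2 + n = x ^ n`, and let `z = Y + √(-n)` in `ℤ[√(-n)]`, an element
of norm `x ^ n`.  If `x` is odd and prime to `n`, then `I = (x, z)` satisfies `I ^ n = (z)`.  All the
ideals `I ^ j`, `1 ≤ j ≤ n`, are equivalent to ideals `(c, b + √(-n))` with `0 ≤ b < c`,
`3 c ^ 2 ≤ 4 n`, `c ∣ b ^ 2 + n`, of which there are fewer than `n`.  Hence the order `t` of the class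
of `I` divides `n` and is smaller than `n`, and `z = ± γ ^ q` with a prime `q ∣ n / t`.  But the
coefficient of `√(-n)` in a `q`-th power is divisible by `q` whenever `q ∣ n`.  Contradiction.
-/

namespace Pool.Agent.Results.MP_6050fa_nt.EvenExponent

open Zsqrtd

/-- the ideal `(A, B + √(-n))` of `ℤ[√(-n)]` -/
def J (n : ℕ) (A B : ℤ) : Ideal (ℤ√(-(n : ℤ))) := Ideal.span {(A : ℤ√(-(n : ℤ))), ⟨B, 1⟩}

section ring

variable {n : ℕ}

theorem nzd (hn : 0 < n) : NoZeroDivisors (ℤ√(-(n : ℤ))) := by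
  have hd : (-(n : ℤ)) < 0 := by omega
  refine ⟨fun {a b} hab => ?_⟩
  have h : (a * b).norm = 0 := by rw [hab]; exact norm_zero
  rw [norm_mul] at h
  rcases mul_eq_zero.1 h with h | h
  · exact Or.inl ((norm_eq_zero_iff hd a).1 h)
  · exact Or.inr ((norm_eq_zero_iff hd b).1 h)

theorem dom (hn : 0 < n) : IsDomain (ℤ√(-(n : ℤ))) :=
  haveI := nzd hn
  NoZeroDivisors.to_isDomain _

theorem J_shift (A B k : ℤ) : J n A (B + k * A) = J n A B := by
  unfold J
  apply _root_.le_antisymm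
  · rw [Ideal.span_le]
    rintro w hw
    rcases hw with rfl | rfl
    · exact Ideal.subset_span (Set.mem_insert _ _)
    · have h1 : (A : ℤ√(-(n : ℤ))) ∈ Ideal.span {(A : ℤ√(-(n : ℤ))), ⟨B, 1⟩} :=
        Ideal.subset_span (Set.mem_insert _ _)
      have h2 : (⟨B, 1⟩ : ℤ√(-(n : ℤ))) ∈ Ideal.span {(A : ℤ√(-(n : ℤ))), ⟨B, 1⟩} :=
        Ideal.subset_span (Set.mem_insert_of_mem _ rfl)
      have h3 : (⟨B + k * A, 1⟩ : ℤ√(-(n : ℤ))) = ⟨B, 1⟩ + (k : ℤ√(-(n : ℤ))) * A := by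
        ext <;> simp
      rw [SetLike.mem_coe, h3]
      exact Ideal.add_mem _ h2 (Ideal.mul_mem_left _ _ h1)
  · rw [Ideal.span_le]
    rintro w hw
    rcases hw with rfl | rfl
    · exact Ideal.subset_span (Set.mem_insert _ _)
    · have h1 : (A : ℤ√(-(n : ℤ))) ∈ Ideal.span {(A : ℤ√(-(n : ℤ))), ⟨B + k * A, 1⟩} :=
        Ideal.subset_span (Set.mem_insert _ _)
      have h2 : (⟨B + k * A, 1⟩ : ℤ√(-(n : ℤ))) ∈
          Ideal.span {(A : ℤ√(-(n : ℤ))), ⟨B + k * A, 1⟩} :=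
        Ideal.subset_span (Set.mem_insert_of_mem _ rfl)
      have h3 : (⟨B, 1⟩ : ℤ√(-(n : ℤ))) = ⟨B + k * A, 1⟩ - (k : ℤ√(-(n : ℤ))) * A := by
        ext <;> simp
      rw [SetLike.mem_coe, h3]
      exact Ideal.sub_mem _ h2 (Ideal.mul_mem_left _ _ h1)

theorem span_mul_pair (w a b : ℤ√(-(n : ℤ))) :
    Ideal.span {w} * Ideal.span {a, b} = Ideal.span {w * a, w * b} := by
  rw [Ideal.span_mul_span']
  congr 1
  rw [Set.singleton_mul, Set.image_pair]

theorem J_swap (A B C : ℤ) (h : A * C = B ^ 2 + n) :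
    Ideal.span {(⟨B, -1⟩ : ℤ√(-(n : ℤ)))} * J n A B =
      Ideal.span {(A : ℤ√(-(n : ℤ)))} * J n C (-B) := by
  unfold J
  rw [span_mul_pair, span_mul_pair]
  have e1 : (⟨B, -1⟩ : ℤ√(-(n : ℤ))) * (A : ℤ√(-(n : ℤ))) =
      -((A : ℤ√(-(n : ℤ))) * ⟨-B, 1⟩) := by
    ext <;> simp [mul_comm]
  have e2 : (⟨B, -1⟩ : ℤ√(-(n : ℤ))) * ⟨B, 1⟩ = (A : ℤ√(-(n : ℤ))) * (C : ℤ√(-(n : ℤ))) := by
    ext
    · simp
      linarith
    · simp
  rw [e1, e2]
  rw [Set.pair_comm]
  apply _root_.le_antisymm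
  · rw [Ideal.span_le]
    rintro w hw
    rcases hw with rfl | rfl
    · exact Ideal.subset_span (Set.mem_insert _ _)
    · rw [SetLike.mem_coe, Ideal.neg_mem_iff]
      exact Ideal.subset_span (Set.mem_insert_of_mem _ rfl)
  · rw [Ideal.span_le]
    rintro w hw
    rcases hw with rfl | rfl
    · exact Ideal.subset_span (Set.mem_insert _ _)
    · rw [SetLike.mem_coe, ← Ideal.neg_mem_iff]
      exact Ideal.subset_span (Set.mem_insert_of_mem _ rfl)

/-- reduction: every ideal `(A, B + √(-n))` is equivalent to one with small data -/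
theorem red (hn : 0 < n) : ∀ (A : ℕ), 0 < A → ∀ B : ℤ, (A : ℤ) ∣ B ^ 2 + n →
    ∃ c b : ℕ, 0 < c ∧ b < c ∧ 3 * c ^ 2 ≤ 4 * n ∧ c ∣ b ^ 2 + n ∧
      ∃ α β : ℤ√(-(n : ℤ)), α ≠ 0 ∧ β ≠ 0 ∧
        Ideal.span {α} * J n A B = Ideal.span {β} * J n c b := by
  intro A
  induction A using Nat.strong_induction_on with
  | _ A ih =>
    intro hA B hAB
    have := nzd hn
    have := dom hn
    -- balanced representative
    obtain ⟨k, hk⟩ : ∃ k : ℤ, 2 * |B + k * A| ≤ A := by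
      have hA' : (0 : ℤ) < A := by exact_mod_cast hA
      refine ⟨-((2 * B + A) / (2 * A)), ?_⟩
      have h1 := Int.emod_add_mul_ediv (2 * B + A) (2 * A)
      have h2 := Int.emod_nonneg (2 * B + A) (by omega : (2 * (A : ℤ)) ≠ 0)
      have h3 := Int.emod_lt_of_pos (2 * B + A) (by omega : (0 : ℤ) < 2 * A)
      set e := (2 * B + (A : ℤ)) / (2 * A) with he
      have h4 : 2 * (B + -e * A) = (2 * B + A) % (2 * A) - A := by linarith
      have h5 : |2 * (B + -e * A)| ≤ A := by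
        rw [h4, abs_le]
        constructor <;> linarith
      rw [abs_mul] at h5
      simpa using h5
    set B' : ℤ := B + k * A with hB'
    have hshift : J n A B = J n A B' := (J_shift (n := n) A B k).symm
    have hdvd : (A : ℤ) ∣ B' ^ 2 + n := by
      have : B' ^ 2 + n = (B ^ 2 + n) + A * (2 * B * k + k ^ 2 * A) := by rw [hB']; ring
      rw [this]
      exact dvd_add hAB (dvd_mul_right _ _)
    obtain ⟨C, hC⟩ := hdvd
    have hA' : (0 : ℤ) < A := by exact_mod_cast hA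
    have hn' : (0 : ℤ) < n := by exact_mod_cast hn
    have hCpos : 0 < C := by
      by_contra hc
      push Not at hc
      nlinarith [sq_nonneg B']
    have hsq : 4 * B' ^ 2 ≤ (A : ℤ) ^ 2 := by
      have h1 : (2 * |B'|) ^ 2 ≤ (A : ℤ) ^ 2 :=
        pow_le_pow_left₀ (by positivity) hk 2
      rw [mul_pow, sq_abs] at h1
      linarith
    by_cases hAC : (A : ℤ) ≤ C
    · -- reduced
      refine ⟨A, (B' % A).toNat, hA, ?_, ?_, ?_, 1, 1, one_ne_zero, one_ne_zero, ?_⟩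
      · have h2 := Int.emod_nonneg B' hA'.ne'
        have h3 := Int.emod_lt_of_pos B' hA'
        omega
      · have : 3 * (A : ℤ) ^ 2 ≤ 4 * n := by nlinarith
        exact_mod_cast this
      · have h2 := Int.emod_nonneg B' hA'.ne'
        have h4 : (((B' % A).toNat : ℕ) : ℤ) = B' % A := Int.toNat_of_nonneg h2
        have h5 : (A : ℤ) ∣ (((B' % A).toNat : ℕ) : ℤ) ^ 2 + n := by
          rw [h4]
          have h6 := Int.emod_add_mul_ediv B' A
          have h7 : (B' % A) ^ 2 + n =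
              (B' ^ 2 + n) + A * (-(2 * B' * (B' / A)) + A * (B' / A) ^ 2) := by
            have : B' % A = B' - A * (B' / A) := by linarith
            rw [this]
            ring
          rw [h7, hC]
          exact dvd_add (dvd_mul_right _ _) (dvd_mul_right _ _)
        exact_mod_cast h5
      · have h2 := Int.emod_nonneg B' hA'.ne'
        have h4 : (((B' % A).toNat : ℕ) : ℤ) = B' % A := Int.toNat_of_nonneg h2
        rw [hshift, h4]
        congr 1
        have h6 := Int.emod_add_mul_ediv B' A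
        have h7 : B' = B' % A + (B' / A) * A := by linarith
        conv_lhs => rw [h7]
        exact J_shift _ _ _
    · push Not at hAC
      obtain ⟨c0, hc0⟩ : ∃ c0 : ℕ, C = c0 := ⟨C.toNat, (Int.toNat_of_nonneg hCpos.le).symm⟩
      subst hc0
      have hc1 : 0 < c0 := by exact_mod_cast hCpos
      have hc2 : c0 < A := by exact_mod_cast hAC
      obtain ⟨c, b, h1, h2, h3, h4, α, β, hα, hβ, h5⟩ := ih c0 hc2 hc1 (-B')
        ⟨A, by rw [neg_sq, hC]; ring⟩
      refine ⟨c, b, h1, h2, h3, h4, α * ⟨B', -1⟩, β * (A : ℤ√(-(n : ℤ))), ?_, ?_, ?_⟩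
      · refine mul_ne_zero hα fun h => ?_
        have := congrArg Zsqrtd.im h
        simp at this
      · refine mul_ne_zero hβ fun h => ?_
        have := congrArg Zsqrtd.re h
        simp at this
        omega
      · rw [hshift, ← Ideal.span_singleton_mul_span_singleton, mul_assoc,
          J_swap (n := n) (A : ℤ) B' c0 (by rw [← hC]), mul_left_comm, h5,
          ← Ideal.span_singleton_mul_span_singleton, ← mul_assoc, mul_comm (Ideal.span {β})]
        simp

theorem J_pow {x : ℕ} {Y : ℤ} (h : (x : ℤ) ^ n = Y ^ 2 + n) (hc : IsCoprime (x : ℤ) (2 * Y)) :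
    ∀ j : ℕ, j + 1 ≤ n → J n ((x ^ (j + 1) : ℕ) : ℤ) Y = (J n x Y) ^ (j + 1) := by
  intro j
  induction j with
  | zero => intro _; simp
  | succ j ih =>
    intro hj
    rw [pow_succ (J n x Y), ← ih (by omega)]
    obtain ⟨u, v, huv⟩ := hc
    obtain ⟨e, he⟩ : ∃ e, n = (j + 1 + 1) + e := ⟨n - (j + 1 + 1), by omega⟩
    unfold J
    rw [Ideal.span_pair_mul_span_pair]
    set z : ℤ√(-(n : ℤ)) := ⟨Y, 1⟩ with hz
    have hzz : z * z = ((2 * Y : ℤ) : ℤ√(-(n : ℤ))) * z - ((x : ℤ) : ℤ√(-(n : ℤ))) ^ n := by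
      have : ((x : ℤ) : ℤ√(-(n : ℤ))) ^ n = ⟨Y ^ 2 + n, 0⟩ := by
        rw [← Int.cast_pow, h, intCast_val]
      rw [this, hz, intCast_val]
      ext
      · simp
        ring
      · simp
        ring
    have hx1 : (((x ^ (j + 1) : ℕ) : ℤ) : ℤ√(-(n : ℤ))) = ((x : ℤ) : ℤ√(-(n : ℤ))) ^ (j + 1) := by
      push_cast; rfl
    have hx2 : (((x ^ (j + 1 + 1) : ℕ) : ℤ) : ℤ√(-(n : ℤ))) =
        ((x : ℤ) : ℤ√(-(n : ℤ))) ^ (j + 1 + 1) := by
      push_cast; rfl
    rw [hx1, hx2]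
    set X : ℤ√(-(n : ℤ)) := ((x : ℤ) : ℤ√(-(n : ℤ))) with hX
    apply _root_.le_antisymm
    · rw [Ideal.span_le]
      have hm1 : X ^ (j + 1) * X ∈ Ideal.span {X ^ (j + 1) * X, X ^ (j + 1) * z, z * X, z * z} :=
        Ideal.subset_span (by simp)
      have hm2 : z * X ∈ Ideal.span {X ^ (j + 1) * X, X ^ (j + 1) * z, z * X, z * z} :=
        Ideal.subset_span (by simp)
      have hm3 : z * z ∈ Ideal.span {X ^ (j + 1) * X, X ^ (j + 1) * z, z * X, z * z} :=
        Ideal.subset_span (by simp)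
      rintro w hw
      rcases hw with rfl | rfl
      · rw [SetLike.mem_coe, pow_succ]
        exact hm1
      · rw [SetLike.mem_coe]
        have h1 : z = (u : ℤ√(-(n : ℤ))) * (z * X) +
            (v : ℤ√(-(n : ℤ))) * (z * z + X ^ e * (X ^ (j + 1) * X)) := by
          rw [hzz]
          have h2 : X ^ e * (X ^ (j + 1) * X) = X ^ n := by
            have h4 : X ^ n = X ^ (j + 1 + 1 + e) := congrArg (fun i => X ^ i) he
            rw [h4]
            ring
          rw [h2]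
          have h3 : (u : ℤ√(-(n : ℤ))) * X + (v : ℤ√(-(n : ℤ))) * ((2 * Y : ℤ) : ℤ√(-(n : ℤ))) =
              1 := by
            have h4 := congrArg (fun t : ℤ => (t : ℤ√(-(n : ℤ)))) huv
            simp only [Int.cast_add, Int.cast_mul, Int.cast_one] at h4
            rw [hX, Int.cast_mul]
            exact h4
          calc z = 1 * z := (one_mul z).symm
            _ = _ := by rw [← h3]; ring
        have h5 := Ideal.add_mem _ (Ideal.mul_mem_left _ (u : ℤ√(-(n : ℤ))) hm2)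
          (Ideal.mul_mem_left _ (v : ℤ√(-(n : ℤ)))
            (Ideal.add_mem _ hm3 (Ideal.mul_mem_left _ (X ^ e) hm1)))
        rwa [← h1] at h5
    · rw [Ideal.span_le]
      have hm1 : X ^ (j + 1 + 1) ∈ Ideal.span {X ^ (j + 1 + 1), z} :=
        Ideal.subset_span (by simp)
      have hm2 : z ∈ Ideal.span {X ^ (j + 1 + 1), z} :=
        Ideal.subset_span (by simp)
      rintro w hw
      rcases hw with rfl | rfl | rfl | rfl
      · rw [SetLike.mem_coe, ← pow_succ]; exact hm1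
      · exact Ideal.mul_mem_left _ _ hm2
      · exact Ideal.mul_mem_right _ _ hm2
      · exact Ideal.mul_mem_left _ _ hm2

theorem J_last {x : ℕ} {Y : ℤ} (h : (x : ℤ) ^ n = Y ^ 2 + n) :
    J n ((x ^ n : ℕ) : ℤ) Y = Ideal.span {(⟨Y, 1⟩ : ℤ√(-(n : ℤ)))} := by
  unfold J
  apply _root_.le_antisymm
  · rw [Ideal.span_le]
    rintro w hw
    rcases hw with rfl | rfl
    · rw [SetLike.mem_coe, Ideal.mem_span_singleton]
      refine ⟨⟨Y, -1⟩, ?_⟩
      rw [Nat.cast_pow, h, intCast_val]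
      ext
      · simp
        ring
      · simp
    · exact Ideal.subset_span rfl
  · apply Ideal.span_mono
    simp

theorem princ (hn : 0 < n) {α ρ : ℤ√(-(n : ℤ))} {K : Ideal (ℤ√(-(n : ℤ)))} (hα : α ≠ 0)
    (h : Ideal.span {α} * K = Ideal.span {ρ}) : ∃ w, K = Ideal.span {w} := by
  have := nzd hn
  have := dom hn
  have h1 : ρ ∈ Ideal.span {α} * K := by rw [h]; exact Ideal.mem_span_singleton_self ρ
  obtain ⟨w, _, hw⟩ := Ideal.mem_span_singleton_mul.1 h1
  refine ⟨w, ?_⟩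
  rw [← hw, ← Ideal.span_singleton_mul_span_singleton] at h
  exact (Ideal.span_singleton_mul_right_inj hα).1 h

/-- the finite set of reduced data -/
def S (n : ℕ) : Finset (ℕ × ℕ) :=
  ((Finset.range (n + 1)) ×ˢ (Finset.range (n + 1))).filter
    (fun p => 0 < p.1 ∧ p.2 < p.1 ∧ 3 * p.1 ^ 2 ≤ 4 * n ∧ p.1 ∣ p.2 ^ 2 + n)

theorem mem_S {c b : ℕ} (h1 : 0 < c) (h2 : b < c) (h3 : 3 * c ^ 2 ≤ 4 * n) (h4 : c ∣ b ^ 2 + n) :
    (c, b) ∈ S n := by
  unfold S
  simp only [Finset.mem_filter, Finset.mem_product, Finset.mem_range]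
  refine ⟨⟨?_, ?_⟩, h1, h2, h3, h4⟩
  · by_contra hc
    push Not at hc
    nlinarith
  · by_contra hc
    push Not at hc
    nlinarith

theorem card_S (hn : 2 ≤ n) : (S n).card < n := by
  rcases Nat.lt_or_ge n 4 with h4 | h4
  · interval_cases n <;> decide
  · set K := Nat.sqrt (4 * n / 3) with hK
    have hK1 : 3 * K ^ 2 ≤ 4 * n := by
      have := Nat.sqrt_le' (4 * n / 3)
      rw [← hK] at this
      omega
    have hsub : S n ⊆ (Finset.range (K + 1)).biUnion
        (fun c => (Finset.range c).image (fun b => (c, b))) := by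
      rintro ⟨c, b⟩ hcb
      unfold S at hcb
      simp only [Finset.mem_filter, Finset.mem_product, Finset.mem_range] at hcb
      obtain ⟨_, h1, h2, h3, _⟩ := hcb
      rw [Finset.mem_biUnion]
      refine ⟨c, ?_, ?_⟩
      · rw [Finset.mem_range, Nat.lt_succ_iff, hK, Nat.le_sqrt']
        omega
      · rw [Finset.mem_image]
        exact ⟨b, Finset.mem_range.2 h2, rfl⟩
    have h5 : (S n).card ≤ ∑ c ∈ Finset.range (K + 1), c := by
      refine (Finset.card_le_card hsub).trans (Finset.card_biUnion_le.trans ?_)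
      refine Finset.sum_le_sum fun c _ => ?_
      exact Finset.card_image_le.trans (by simp)
    have h6 := Finset.sum_range_id_mul_two (K + 1)
    simp only [Nat.add_sub_cancel] at h6
    have h7 : (K + 1) * K < 2 * n := by
      rcases Nat.lt_or_ge K 3 with hK3 | hK3
      · interval_cases K <;> omega
      · nlinarith
    omega

/-- the coefficient of `√(-n)` in a `q`-th power is divisible by `q` when `q ∣ n` -/
theorem im_pow {q : ℤ} (hq : q ∣ n) (γ : ℤ√(-(n : ℤ))) : ∀ i : ℕ,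
    q ∣ (γ ^ i).re - γ.re ^ i ∧ q ∣ (γ ^ (i + 1)).im - (i + 1) * γ.re ^ i * γ.im := by
  intro i
  induction i with
  | zero => simp
  | succ i ih =>
    obtain ⟨⟨a, ha⟩, ⟨b, hb⟩⟩ := ih
    obtain ⟨m, hm⟩ := hq
    have h1 : (γ ^ (i + 1)).re = (γ ^ i).re * γ.re + -(n : ℤ) * (γ ^ i).im * γ.im := by
      rw [pow_succ, re_mul]
    have h2 : (γ ^ (i + 1 + 1)).im = (γ ^ (i + 1)).re * γ.im + (γ ^ (i + 1)).im * γ.re := by
      rw [pow_succ, im_mul]
    have h3 : q ∣ (γ ^ (i + 1)).re - γ.re ^ (i + 1) := by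
      refine ⟨a * γ.re - m * (γ ^ i).im * γ.im, ?_⟩
      have h4 : (γ ^ i).re = q * a + γ.re ^ i := by linarith
      rw [h1, h4]
      have h5 : -(n : ℤ) * (γ ^ i).im * γ.im = -(q * m) * (γ ^ i).im * γ.im := by
        rw [← hm]
      rw [h5]
      ring
    refine ⟨h3, ?_⟩
    obtain ⟨c, hc⟩ := h3
    refine ⟨c * γ.im + b * γ.re, ?_⟩
    have h4 : (γ ^ (i + 1)).re = q * c + γ.re ^ (i + 1) := by linarith
    have h5 : (γ ^ (i + 1)).im = q * b + (i + 1) * γ.re ^ i * γ.im := by linarith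
    rw [h2, h4, h5]
    push_cast
    ring

theorem im_pow_self {q : ℕ} (hq0 : 0 < q) (hq : q ∣ n) (γ : ℤ√(-(n : ℤ))) :
    (q : ℤ) ∣ (γ ^ q).im := by
  obtain ⟨i, rfl⟩ : ∃ i, q = i + 1 := ⟨q - 1, by omega⟩
  have h := (im_pow (n := n) (q := ((i + 1 : ℕ) : ℤ)) (by exact_mod_cast hq) γ i).2
  have h2 : ((i + 1 : ℕ) : ℤ) ∣ (i + 1) * γ.re ^ i * γ.im := by
    push_cast
    exact Dvd.dvd.mul_right (dvd_mul_right _ _) _
  have := dvd_add h h2
  simpa using this

theorem unit_eq (hn : 2 ≤ n) {u : ℤ√(-(n : ℤ))} (hu : IsUnit u) : u = 1 ∨ u = -1 := by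
  have h := (norm_eq_one_iff' (by omega : (-(n : ℤ)) ≤ 0) u).2 hu
  rw [norm_def] at h
  have hn' : (2 : ℤ) ≤ n := by exact_mod_cast hn
  have him : u.im = 0 := by
    by_contra hc
    have h1 : 1 ≤ u.im * u.im := by
      rcases lt_or_gt_of_ne hc with h2 | h2 <;> nlinarith
    nlinarith [mul_self_nonneg u.re]
  rw [him] at h
  have hre : u.re = 1 ∨ u.re = -1 := by
    have : (u.re - 1) * (u.re + 1) = 0 := by linarith
    rcases mul_eq_zero.1 this with h1 | h1
    · left; omega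
    · right; omega
  rcases hre with h1 | h1
  · left; ext <;> simp [h1, him]
  · right; ext <;> simp [h1, him]

/-- the main step -/
theorem core (hn : 2 ≤ n) {x : ℕ} (hx : 0 < x) {Y : ℤ} (h : (x : ℤ) ^ n = Y ^ 2 + n)
    (hc : IsCoprime (x : ℤ) (2 * Y)) : False := by
  have hn0 : 0 < n := by omega
  have := nzd hn0
  have := dom hn0
  set I : Ideal (ℤ√(-(n : ℤ))) := J n x Y with hI
  set z : ℤ√(-(n : ℤ)) := ⟨Y, 1⟩ with hz
  have hz0 : z ≠ 0 := fun h => by
    have := congrArg Zsqrtd.im h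
    simp [hz] at this
  have hpow : ∀ j, 1 ≤ j → j ≤ n → J n ((x ^ j : ℕ) : ℤ) Y = I ^ j := by
    intro j h1 h2
    obtain ⟨i, rfl⟩ : ∃ i, j = i + 1 := ⟨j - 1, by omega⟩
    exact J_pow h hc i h2
  have hIn : I ^ n = Ideal.span {z} := by
    rw [← hpow n (by omega) le_rfl]
    exact J_last h
  -- a proper principal power
  have hs : ∃ s, 0 < s ∧ s < n ∧ ∃ w, I ^ s = Ideal.span {w} := by
    have hred : ∀ j ∈ Finset.Icc 1 n, ∃ p : ℕ × ℕ, p ∈ S n ∧
        ∃ α β : ℤ√(-(n : ℤ)), α ≠ 0 ∧ β ≠ 0 ∧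
          Ideal.span {α} * I ^ j = Ideal.span {β} * J n p.1 p.2 := by
      intro j hj
      rw [Finset.mem_Icc] at hj
      obtain ⟨c, b, h1, h2, h3, h4, α, β, hα, hβ, h5⟩ := red hn0 (x ^ j) (by positivity) Y
        (by rw [← h]; exact_mod_cast pow_dvd_pow x hj.2)
      refine ⟨(c, b), mem_S h1 h2 h3 h4, α, β, hα, hβ, ?_⟩
      rw [← hpow j hj.1 hj.2]
      exact h5
    choose! f hf using hred
    obtain ⟨a, ha, b, hb, hab, hfab⟩ := Finset.exists_ne_map_eq_of_card_lt_of_maps_to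
      (s := Finset.Icc 1 n) (t := S n) (f := f) (by simpa using card_S hn)
      (fun j hj => (hf j hj).1)
    have key : ∀ a ∈ Finset.Icc 1 n, ∀ b ∈ Finset.Icc 1 n, a < b → f a = f b →
        ∃ s, 0 < s ∧ s < n ∧ ∃ w, I ^ s = Ideal.span {w} := by
      intro a ha b hb hab hfab
      obtain ⟨_, α, β, hα, hβ, h1⟩ := hf a ha
      obtain ⟨_, α', β', hα', hβ', h2⟩ := hf b hb
      rw [Finset.mem_Icc] at ha hb
      rw [hfab] at h1
      refine ⟨a + (n - b), by omega, by omega, ?_⟩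
      refine princ (α := α * β') (ρ := β * α' * z) hn0 (mul_ne_zero hα hβ') ?_
      calc Ideal.span {α * β'} * I ^ (a + (n - b))
          = Ideal.span {β'} * (Ideal.span {α} * I ^ a) * I ^ (n - b) := by
            rw [← Ideal.span_singleton_mul_span_singleton, pow_add]; ring
        _ = Ideal.span {β} * (Ideal.span {β'} * J n (f b).1 (f b).2) * I ^ (n - b) := by
            rw [h1]; ring
        _ = Ideal.span {β} * (Ideal.span {α'} * (I ^ b * I ^ (n - b))) := by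
            rw [← h2]; ring
        _ = Ideal.span {β * α' * z} := by
            rw [← pow_add, show b + (n - b) = n by omega, hIn,
              Ideal.span_singleton_mul_span_singleton, Ideal.span_singleton_mul_span_singleton,
              mul_assoc]
    rcases lt_or_gt_of_ne hab with h1 | h1
    · exact key a ha b hb h1 hfab
    · exact key b hb a ha h1 hfab.symm
  -- the minimal principal power
  have hex : ∃ t, 0 < t ∧ ∃ w, I ^ t = Ideal.span {w} := by
    obtain ⟨s, h1, _, h2⟩ := hs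
    exact ⟨s, h1, h2⟩
  classical
  set t := Nat.find hex with ht
  obtain ⟨ht0, γ, hγ⟩ := Nat.find_spec hex
  rw [← ht] at ht0 hγ
  have htn : t < n := by
    obtain ⟨s, h1, h2, h3⟩ := hs
    exact lt_of_le_of_lt (Nat.find_min' hex ⟨h1, h3⟩) h2
  have hdecomp : Ideal.span {γ ^ (n / t)} * I ^ (n % t) = Ideal.span {z} := by
    rw [← Ideal.span_singleton_pow, ← hγ, ← pow_mul, ← pow_add, Nat.div_add_mod, hIn]
  have hγ0 : γ ^ (n / t) ≠ 0 := by
    intro h0
    rw [h0] at hdecomp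
    simp at hdecomp
    exact hz0 (Ideal.span_singleton_eq_bot.1 hdecomp.symm)
  have hdiv : n % t = 0 := by
    by_contra hr
    have h1 := princ hn0 hγ0 hdecomp
    have h2 := Nat.find_min' hex ⟨Nat.pos_of_ne_zero hr, h1⟩
    have h3 := Nat.mod_lt n ht0
    omega
  rw [hdiv, pow_zero, mul_one] at hdecomp
  obtain ⟨u, hu⟩ := Ideal.span_singleton_eq_span_singleton.1 hdecomp
  set k := n / t with hk
  have hkt : k * t = n := by
    have := Nat.div_add_mod n t
    rw [hdiv] at this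
    rw [hk, mul_comm]
    omega
  have hk2 : 2 ≤ k := by
    by_contra hk3
    have : k ≤ 1 := by omega
    nlinarith
  set q := k.minFac with hq
  have hqp : q.Prime := Nat.minFac_prime (by omega)
  have hqk : q ∣ k := Nat.minFac_dvd k
  obtain ⟨l, hl⟩ := hqk
  have hqn : q ∣ n := ⟨l * t, by rw [← hkt, hl]; ring⟩
  have him := im_pow_self hqp.pos hqn (γ ^ l)
  rw [← pow_mul, mul_comm l q, ← hl] at him
  have hzim : z.im = 1 := rfl
  have h1 : (q : ℤ) ∣ 1 := by
    rcases unit_eq hn u.isUnit with h2 | h2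
    · rw [h2, mul_one] at hu
      rw [← hzim, ← hu]
      exact him
    · rw [h2, mul_neg, mul_one] at hu
      rw [← hzim, ← hu, im_neg]
      exact (dvd_neg).2 him
  have h2 : q ∣ 1 := by exact_mod_cast h1
  exact hqp.one_lt.ne' (Nat.dvd_one.1 h2)

end ring

/-! ### Elementary parts -/

theorem pow_gap {a b k : ℕ} (h : b < a) :
    b ^ (k + 2) + a ^ (k + 1) + b ^ (k + 1) ≤ a ^ (k + 2) := by
  have h1 : (b + 1) * a ^ (k + 1) ≤ a ^ (k + 2) := by
    rw [pow_succ a (k + 1), mul_comm]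
    exact Nat.mul_le_mul_left _ h
  have h2 : b ^ (k + 1) + b ^ k ≤ a ^ (k + 1) := by
    calc b ^ (k + 1) + b ^ k = b ^ k * (b + 1) := by ring
      _ ≤ a ^ k * a := Nat.mul_le_mul (Nat.pow_le_pow_left h.le k) h
      _ = a ^ (k + 1) := (pow_succ a k).symm
  have h3 : b * (b ^ (k + 1) + b ^ k) ≤ b * a ^ (k + 1) := Nat.mul_le_mul_left _ h2
  have h4 : b * (b ^ (k + 1) + b ^ k) = b ^ (k + 2) + b ^ (k + 1) := by ring
  have h5 : (b + 1) * a ^ (k + 1) = b * a ^ (k + 1) + a ^ (k + 1) := by ring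
  omega

theorem size {n1 k : ℕ} (hn : 1 ≤ n1) : (k + 2) * n1 < (2 ^ n1) ^ (k + 1) + 2 := by
  have h0 : n1 + 1 ≤ 2 ^ n1 := Nat.lt_two_pow_self
  rcases Nat.eq_zero_or_pos k with rfl | hk
  · have : 2 * n1 ≤ 2 ^ n1 := by
      obtain ⟨i, rfl⟩ : ∃ i, n1 = i + 1 := ⟨n1 - 1, by omega⟩
      have : i + 1 ≤ 2 ^ i := Nat.lt_two_pow_self
      rw [pow_succ]
      omega
    simp only [Nat.zero_add, pow_one]
    omega
  · have h1 : n1 * k + 1 ≤ 2 ^ (n1 * k) := Nat.lt_two_pow_self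
    have h2 : (2 ^ n1) ^ (k + 1) = 2 ^ (n1 * k) * 2 ^ n1 := by
      rw [← pow_mul, ← pow_add]
      congr 1
    have h3 : (n1 * k + 1) * (n1 + 1) ≤ 2 ^ (n1 * k) * 2 ^ n1 := Nat.mul_le_mul h1 h0
    rw [h2]
    nlinarith [Nat.mul_le_mul hn (le_refl (n1 * k))]

/-- solutions of either equation have coprime exponents -/
theorem coprime_exponents {x n y m : ℕ} (hx : 2 ≤ x) (hn : 2 ≤ n) (hy : 2 ≤ y) (hm : 2 ≤ m)
    (h : x ^ n = y ^ m + n ∨ x ^ n + n = y ^ m) : Nat.Coprime m n := by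
  by_contra hc
  obtain ⟨p, hp, hpm, hpn⟩ := Nat.Prime.not_coprime_iff_dvd.1 hc
  obtain ⟨m1, rfl⟩ := hpm
  obtain ⟨n1, rfl⟩ := hpn
  obtain ⟨k, rfl⟩ : ∃ k, p = k + 2 := ⟨p - 2, by have := hp.two_le; omega⟩
  have hn1 : 1 ≤ n1 := by
    by_contra h1
    have : n1 = 0 := by omega
    subst this
    omega
  have hm1 : 1 ≤ m1 := by
    by_contra h1
    have : m1 = 0 := by omega
    subst this
    omega
  rw [mul_comm (k + 2) m1, mul_comm (k + 2) n1, pow_mul, pow_mul] at h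
  set a := x ^ n1 with ha
  set b := y ^ m1 with hb
  have ha2 : 2 ^ n1 ≤ a := Nat.pow_le_pow_left hx n1
  have hb2 : 2 ≤ b := by
    calc 2 ≤ y := hy
      _ = y ^ 1 := (pow_one y).symm
      _ ≤ y ^ m1 := Nat.pow_le_pow_right (by omega) hm1
  have hsz := size (k := k) hn1
  have ha3 : (2 ^ n1) ^ (k + 1) ≤ a ^ (k + 1) := Nat.pow_le_pow_left ha2 _
  have hb3 : 2 ≤ b ^ (k + 1) := by
    calc 2 ≤ b := hb2
      _ = b ^ 1 := (pow_one b).symm
      _ ≤ b ^ (k + 1) := Nat.pow_le_pow_right (by omega) (by omega)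
  rw [mul_comm n1] at h
  rcases h with h | h
  · have hlt : b < a := by
      have : b ^ (k + 2) < a ^ (k + 2) := by
        rw [h]
        have : 0 < (k + 2) * n1 := by positivity
        omega
      exact lt_of_pow_lt_pow_left' _ this
    have := pow_gap (k := k) hlt
    omega
  · have hlt : a < b := by
      have : a ^ (k + 2) < b ^ (k + 2) := by
        rw [← h]
        have : 0 < (k + 2) * n1 := by positivity
        omega
      exact lt_of_pow_lt_pow_left' _ this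
    have := pow_gap (k := k) hlt
    omega

/-- common prime factors of `x` and `n` -/
theorem common_prime {x n y m p : ℕ} (hn : 2 ≤ n) (hy : 2 ≤ y) (hm2 : Even m)
    (h : x ^ n = y ^ m + n) (hp : p.Prime) (hpx : p ∣ x) (hpn : p ∣ n) :
    ∃ e n' s : ℕ, 1 ≤ e ∧ n = p ^ (m * e) * n' ∧ ¬ p ∣ n' ∧ p ∣ s ^ 2 + n' := by
  have hpxn : p ^ n ∣ x ^ n := pow_dvd_pow_of_dvd hpx n
  have hpy : p ∣ y := by
    have h1 : p ∣ x ^ n := dvd_pow hpx (by omega)
    rw [h] at h1
    exact hp.dvd_of_dvd_pow ((Nat.dvd_add_left hpn).1 h1)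
  obtain ⟨e, y', hy', rfl⟩ := Nat.exists_eq_pow_mul_and_not_dvd (by omega : y ≠ 0) p hp.ne_one
  have he : 1 ≤ e := by
    by_contra h1
    have : e = 0 := by omega
    subst this
    rw [pow_zero, one_mul] at hpy
    exact hy' hpy
  have hlt : m * e < n := by
    by_contra h1
    push Not at h1
    have h2 : p ^ n ∣ (p ^ e * y') ^ m := by
      rw [mul_pow, ← pow_mul, mul_comm e m]
      exact dvd_mul_of_dvd_left (pow_dvd_pow p h1) _
    have h3 : p ^ n ∣ n := by
      rw [h] at hpxn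
      exact (Nat.dvd_add_right h2).1 hpxn
    have h4 := Nat.le_of_dvd (by omega) h3
    have h5 : n < p ^ n := Nat.lt_pow_self hp.one_lt
    omega
  obtain ⟨X, hX⟩ := hpxn
  have hX' : x ^ n = p ^ (m * e) * (p * (p ^ (n - m * e - 1) * X)) := by
    rw [hX]
    have : p ^ n = p ^ (m * e) * (p * p ^ (n - m * e - 1)) := by
      rw [← pow_succ', ← pow_add]
      congr 1
      omega
    rw [this]
    ring
  have hY : (p ^ e * y') ^ m = p ^ (m * e) * y' ^ m := by
    rw [mul_pow, ← pow_mul, mul_comm e m]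
  have h6 : p ^ (m * e) ∣ n := by
    have h7 : p ^ (m * e) ∣ p ^ (m * e) * y' ^ m + n := by
      rw [← hY, ← h, hX']
      exact dvd_mul_right _ _
    exact (Nat.dvd_add_right (dvd_mul_right _ _)).1 h7
  obtain ⟨n', hn'⟩ := h6
  have h8 : p * (p ^ (n - m * e - 1) * X) = y' ^ m + n' := by
    have h9 : p ^ (m * e) * (p * (p ^ (n - m * e - 1) * X)) = p ^ (m * e) * (y' ^ m + n') := by
      rw [← hX', h, hY, mul_add, ← hn']
    exact Nat.eq_of_mul_eq_mul_left (pow_pos hp.pos _) h9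
  obtain ⟨r, hr⟩ := hm2
  refine ⟨e, n', y' ^ r, he, hn', ?_, ?_⟩
  · intro h10
    have h11 : p ∣ y' ^ m + n' := by rw [← h8]; exact dvd_mul_right _ _
    exact hy' (hp.dvd_of_dvd_pow ((Nat.dvd_add_left h10).1 h11))
  · have h12 : (y' ^ r) ^ 2 = y' ^ m := by
      rw [← pow_mul, hr]
      congr 1
      omega
    rw [h12, ← h8]
    exact dvd_mul_right _ _

theorem odd_pow {y : ℤ} (hy : Odd y) : ∀ k : ℕ, (2 : ℤ) ^ (k + 3) ∣ y ^ 2 ^ (k + 1) - 1 := by
  intro k
  induction k with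
  | zero =>
    obtain ⟨w, hw⟩ := hy
    obtain ⟨v, hv⟩ := Int.even_mul_succ_self w
    refine ⟨v, ?_⟩
    have : y ^ 2 ^ (0 + 1) - 1 = 4 * (w * (w + 1)) := by rw [hw]; norm_num; ring
    rw [this, hv]
    norm_num
    ring
  | succ k ih =>
    obtain ⟨a, ha⟩ := ih
    have h1 : y ^ 2 ^ (k + 1 + 1) - 1 = (y ^ 2 ^ (k + 1) - 1) * (y ^ 2 ^ (k + 1) + 1) := by
      rw [pow_succ 2 (k + 1), pow_mul]
      ring
    have h2 : (2 : ℤ) ∣ y ^ 2 ^ (k + 1) + 1 := by
      have : Odd (y ^ 2 ^ (k + 1)) := hy.pow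
      exact even_iff_two_dvd.1 (this.add_odd odd_one)
    rw [h1, show k + 1 + 3 = (k + 3) + 1 by ring, pow_succ]
    exact mul_dvd_mul ⟨a, ha⟩ h2

/-- the case of even `x` -/
theorem even_case {x n y m : ℕ} (hn : 2 ≤ n) (h : x ^ n = y ^ m + n) (hm2 : 2 ∣ m)
    (hm0 : 0 < m) (hnodd : ¬ 2 ∣ n) (hx : 2 ∣ x) (k : ℕ) (hk : 2 ^ k ∣ m) :
    2 ^ (k + 2) ∣ n + 1 := by
  have hyodd : Odd y := by
    by_contra hc
    rw [Nat.not_odd_iff_even] at hc
    have h1 : 2 ∣ y ^ m := dvd_pow hc.two_dvd (by omega)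
    have h2 : 2 ∣ x ^ n := dvd_pow hx (by omega)
    rw [h] at h2
    exact hnodd ((Nat.dvd_add_right h1).1 h2)
  have hx2 : 2 ^ n ∣ x ^ n := pow_dvd_pow_of_dvd hx n
  have key : ∀ j : ℕ, 2 ^ (j + 1) ∣ m → 2 ^ (j + 3) ∣ n + 1 := by
    intro j hj
    have h1 : (2 : ℤ) ^ (j + 3) ∣ (y : ℤ) ^ m - 1 := by
      obtain ⟨i, hi⟩ := hj
      have h2 := odd_pow (y := (y : ℤ)) (by exact_mod_cast hyodd) j
      rw [hi, pow_mul]
      have h3 := sub_dvd_pow_sub_pow ((y : ℤ) ^ 2 ^ (j + 1)) 1 i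
      rw [one_pow] at h3
      exact h2.trans h3
    have hx3 : (2 : ℤ) ^ n ∣ ((y : ℤ) ^ m - 1) + (n + 1) := by
      have : ((2 ^ n : ℕ) : ℤ) ∣ ((y ^ m + n : ℕ) : ℤ) := by
        rw [← h]; exact_mod_cast hx2
      push_cast at this
      have h4 : ((y : ℤ) ^ m - 1) + (n + 1) = (y : ℤ) ^ m + n := by ring
      rw [h4]
      exact this
    have hlt : j + 3 ≤ n := by
      by_contra hc
      push Not at hc
      have h5 : (2 : ℤ) ^ n ∣ (y : ℤ) ^ m - 1 := (pow_dvd_pow 2 (by omega)).trans h1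
      have h6 : (2 : ℤ) ^ n ∣ (n : ℤ) + 1 := (dvd_add_right h5).1 hx3
      have h7 : 2 ^ n ∣ n + 1 := by exact_mod_cast h6
      have h8 := Nat.le_of_dvd (by omega) h7
      have h9 : n + 1 < 2 ^ n := by
        obtain ⟨i, rfl⟩ : ∃ i, n = i + 1 := ⟨n - 1, by omega⟩
        have : i + 1 ≤ 2 ^ i := Nat.lt_two_pow_self
        rw [pow_succ]
        omega
      omega
    have h5 : (2 : ℤ) ^ (j + 3) ∣ (n : ℤ) + 1 :=
      (dvd_add_right h1).1 ((pow_dvd_pow 2 hlt).trans hx3)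
    exact_mod_cast h5
  rcases k with _ | j
  · exact (pow_dvd_pow 2 (by norm_num : 0 + 2 ≤ 0 + 3)).trans (key 0 (by simpa using hm2))
  · exact key j hk

/-- **Result.**  Let `x, n, y, m ≥ 2` with `x ^ n - n = y ^ m` and `m` even.  Then either `x` is even
and `2 ^ (k + 2) ∣ n + 1` for every `k` with `2 ^ k ∣ m` (in particular `n ≡ 7 (mod 8)`), or `x` is
odd and there are a prime `p ∣ x` and an integer `e ≥ 1` with `n = p ^ (m e) n'`, `p ∤ n'`, and `-n'`
a square modulo `p`.  In particular there is no solution with `m` even, `n` squarefree and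
`n ≢ 7 (mod 8)`. -/
theorem result (x n y m : ℕ) (hx : 2 ≤ x) (hn : 2 ≤ n) (hy : 2 ≤ y) (hm : 2 ≤ m)
    (h : x ^ n = y ^ m + n) (hm2 : Even m) :
    (Even x ∧ ∀ k : ℕ, 2 ^ k ∣ m → 2 ^ (k + 2) ∣ n + 1) ∨
      (Odd x ∧ ∃ p e n' s : ℕ, p.Prime ∧ p ∣ x ∧ 1 ≤ e ∧ n = p ^ (m * e) * n' ∧ ¬ p ∣ n' ∧
        p ∣ s ^ 2 + n') := by
  have hcop := coprime_exponents hx hn hy hm (Or.inl h)
  have hnodd : ¬ 2 ∣ n := by
    intro h2
    have h3 : 2 ∣ m := even_iff_two_dvd.1 hm2
    have := Nat.dvd_gcd h3 h2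
    rw [hcop] at this
    omega
  obtain ⟨r, hr⟩ := hm2
  have hY : y ^ m = (y ^ r) ^ 2 := by
    rw [← pow_mul, hr]
    congr 1
    omega
  rcases Nat.even_or_odd x with hxe | hxo
  · left
    exact ⟨hxe, even_case hn h ⟨r, by omega⟩ (by omega) hnodd hxe.two_dvd⟩
  · right
    refine ⟨hxo, ?_⟩
    by_contra hcon
    push Not at hcon
    -- `x` and `n` are coprime
    have hxn : ∀ p : ℕ, p.Prime → p ∣ x → ¬ p ∣ n := by
      intro p hp hpx hpn
      obtain ⟨e, n', s, h1, h2, h3, h4⟩ := common_prime hn hy ⟨r, hr⟩ h hp hpx hpn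
      exact hcon p e n' s hp hpx h1 h2 h3 h4
    have hcop2 : Nat.Coprime x (2 * y ^ r) := by
      by_contra hc
      obtain ⟨p, hp, hpx, hp2⟩ := Nat.Prime.not_coprime_iff_dvd.1 hc
      rcases (Nat.Prime.dvd_mul hp).1 hp2 with h2 | h2
      · have : p = 2 := (Nat.prime_dvd_prime_iff_eq hp Nat.prime_two).1 h2
        subst this
        obtain ⟨w, hw⟩ := hxo
        omega
      · apply hxn p hp hpx
        have h3 : p ∣ x ^ n := dvd_pow hpx (by omega)
        rw [h, hY] at h3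
        exact (Nat.dvd_add_right (dvd_pow h2 two_ne_zero)).1 h3
    refine core (n := n) hn (x := x) (by omega) (Y := ((y ^ r : ℕ) : ℤ)) ?_ ?_
    · rw [hY] at h
      exact_mod_cast h
    · have := Nat.isCoprime_iff_coprime.2 hcop2
      push_cast at this ⊢
      exact this

end Pool.Agent.Results.MP_6050fa_nt.EvenExponent
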