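import Pool.Agent.Lib_MP_6050fa.Order
import Pool.Agent.Lib_MP_6050fa.Count

/-!
MP_6050fa_nt.  The equation `x ^ n - n = y ^ m`, `m` odd (the hand-in `EvenExponent` is on even
`m`).

Write `y ^ m = A B ^ 2` and `N = n A`, so that `(A B) ^ 2 + N = A x ^ n`.  If `x` is odd and prime to
`n`, put `I = (x, A B + √(-N))` in `ℤ[√(-N)]`.  Then `I ^ (2 n)` is generated by
`ζ = (y ^ m - n) + 2 B √(-N)`.  If there are fewer than `n₁` reduced ideals (`n₁` the odd part of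
`n`), then the order of the class of `I` is smaller than `n₁`, and `ζ = ± γ ^ q` for an odd prime
`q ∣ n`.  But then `q` divides the coefficient `2 B` of `√(-N)`, so it divides `y` and `x`.
-/

namespace Pool.Agent.Results.MP_6050fa_nt.OddExponent

open Pool.Agent.Lib_MP_6050fa

/-- common prime factors of `x` and `n` -/
theorem common {x n y m p : ℕ} (hn : 2 ≤ n) (hy : 2 ≤ y) (h : x ^ n = y ^ m + n) (hp : p.Prime)
    (hpx : p ∣ x) (hpn : p ∣ n) :
    ∃ e n' : ℕ, 1 ≤ e ∧ n = p ^ (m * e) * n' ∧ ¬ p ∣ n' := by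
  have hpxn : p ^ n ∣ x ^ n := pow_dvd_pow_of_dvd hpx n
  have hpy : p ∣ y := by
    have h1 : p ∣ x ^ n := dvd_pow hpx (by omega)
    rw [h] at h1
    exact hp.dvd_of_dvd_pow ((Nat.dvd_add_left hpn).1 h1)
  obtain ⟨e, y', hy', rfl⟩ := Nat.exists_eq_pow_mul_and_not_dvd (by omega : y ≠ 0) p hp.ne_one
  have he : 1 ≤ e := by
    by_contra h1
    have : e = 0 := by omega
    subst this
    rw [pow_zero, one_mul] at hpy
    exact hy' hpy
  have hlt : m * e < n := by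
    by_contra h1
    push Not at h1
    have h2 : p ^ n ∣ (p ^ e * y') ^ m := by
      rw [mul_pow, ← pow_mul, mul_comm e m]
      exact dvd_mul_of_dvd_left (pow_dvd_pow p h1) _
    have h3 : p ^ n ∣ n := by
      rw [h] at hpxn
      exact (Nat.dvd_add_right h2).1 hpxn
    have h4 := Nat.le_of_dvd (by omega) h3
    have h5 : n < p ^ n := Nat.lt_pow_self hp.one_lt
    omega
  obtain ⟨X, hX⟩ := hpxn
  have hX' : x ^ n = p ^ (m * e) * (p * (p ^ (n - m * e - 1) * X)) := by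
    rw [hX]
    have : p ^ n = p ^ (m * e) * (p * p ^ (n - m * e - 1)) := by
      rw [← pow_succ', ← pow_add]
      congr 1
      omega
    rw [this]
    ring
  have hY : (p ^ e * y') ^ m = p ^ (m * e) * y' ^ m := by
    rw [mul_pow, ← pow_mul, mul_comm e m]
  have h6 : p ^ (m * e) ∣ n := by
    have h7 : p ^ (m * e) ∣ p ^ (m * e) * y' ^ m + n := by
      rw [← hY, ← h, hX']
      exact dvd_mul_right _ _
    exact (Nat.dvd_add_right (dvd_mul_right _ _)).1 h7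
  obtain ⟨n', hn'⟩ := h6
  have h8 : p * (p ^ (n - m * e - 1) * X) = y' ^ m + n' := by
    have h9 : p ^ (m * e) * (p * (p ^ (n - m * e - 1) * X)) = p ^ (m * e) * (y' ^ m + n') := by
      rw [← hX', h, hY, mul_add, ← hn']
    exact Nat.eq_of_mul_eq_mul_left (pow_pos hp.pos _) h9
  refine ⟨e, n', he, hn', ?_⟩
  intro h10
  have h11 : p ∣ y' ^ m + n' := by rw [← h8]; exact dvd_mul_right _ _
  exact hy' (hp.dvd_of_dvd_pow ((Nat.dvd_add_left h10).1 h11))

theorem key {x n y m A B k n1 : ℕ} (hx : 2 ≤ x) (hn : 2 ≤ n) (hy : 2 ≤ y) (hm : m ≠ 0)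
    (h : x ^ n = y ^ m + n) (hAB : y ^ m = A * B ^ 2) (hn1 : Odd n1)
    (hk : n = 2 ^ k * n1) :
    (Even x ∧ Odd n ∧ n * A % 8 = 7) ∨
      (∃ p e n' : ℕ, p.Prime ∧ p ∣ x ∧ 1 ≤ e ∧ n = p ^ (m * e) * n' ∧ ¬ p ∣ n') ∨
      (Odd x ∧ Nat.Coprime x n ∧ n1 < n * A ∧
        (n1 : ℝ) ≤ Real.sqrt (4 * (n * A) / 3) * (1 + Real.log (4 * (n * A) / 3) / 2) ^ 2) := by
  by_cases hb : ∃ p e n' : ℕ, p.Prime ∧ p ∣ x ∧ 1 ≤ e ∧ n = p ^ (m * e) * n' ∧ ¬ p ∣ n'
  · exact Or.inr (Or.inl hb)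
  have hxn : ∀ p : ℕ, p.Prime → p ∣ x → ¬ p ∣ n := by
    intro p hp hpx hpn
    obtain ⟨e, n', h1, h2, h3⟩ := common hn hy h hp hpx hpn
    exact hb ⟨p, e, n', hp, hpx, h1, h2, h3⟩
  have hy0 : 0 < y ^ m := by positivity
  have hA0 : 0 < A := Nat.pos_of_ne_zero (fun h0 => by rw [hAB, h0, Nat.zero_mul] at hy0; omega)
  have hxy : ∀ p : ℕ, p.Prime → p ∣ x → ¬ p ∣ y := by
    intro p hp hpx hpy
    apply hxn p hp hpx
    have h1 : p ∣ x ^ n := dvd_pow hpx (by omega)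
    rw [h] at h1
    exact (Nat.dvd_add_right (dvd_pow hpy hm)).1 h1
  rcases Nat.even_or_odd x with hxe | hxo
  · left
    have hn2 : ¬ 2 ∣ n := hxn 2 Nat.prime_two hxe.two_dvd
    have hy2 : ¬ 2 ∣ y := hxy 2 Nat.prime_two hxe.two_dvd
    have hno : Odd n := by rwa [← Nat.not_even_iff_odd, even_iff_two_dvd]
    refine ⟨hxe, hno, ?_⟩
    have h8 : 8 ∣ x ^ n := by
      have h1 : 2 ^ n ∣ x ^ n := pow_dvd_pow_of_dvd hxe.two_dvd n
      have h2 : 3 ≤ n := by
        rcases Nat.lt_or_ge n 3 with h3 | h3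
        · exfalso
          have : n = 2 := by omega
          exact hn2 ⟨1, by omega⟩
        · exact h3
      have h4 : 2 ^ 3 ∣ 2 ^ n := pow_dvd_pow 2 h2
      exact h4.trans h1
    have hB2 : ¬ 2 ∣ B := by
      intro h2
      apply hy2
      have h3 : 2 ∣ y ^ m := by rw [hAB]; exact dvd_mul_of_dvd_right (dvd_pow h2 two_ne_zero) _
      exact Nat.prime_two.dvd_of_dvd_pow h3
    have hBo : B % 2 = 1 := by omega
    have hno' : n % 2 = 1 := by omega
    have hB8 : B ^ 2 % 8 = 1 := by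
      have h1 : B % 8 = 1 ∨ B % 8 = 3 ∨ B % 8 = 5 ∨ B % 8 = 7 := by omega
      rw [Nat.pow_mod]
      rcases h1 with h1 | h1 | h1 | h1 <;> rw [h1]
    have hn8 : n ^ 2 % 8 = 1 := by
      have h1 : n % 8 = 1 ∨ n % 8 = 3 ∨ n % 8 = 5 ∨ n % 8 = 7 := by omega
      rw [Nat.pow_mod]
      rcases h1 with h1 | h1 | h1 | h1 <;> rw [h1]
    have h9 : (A * B ^ 2 + n) % 8 = 0 := by
      rw [← hAB, ← h]
      exact Nat.mod_eq_zero_of_dvd h8
    have h10 : (A + n) % 8 = 0 := by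
      rw [Nat.add_mod, Nat.mul_mod, hB8] at h9
      omega
    have h11 : (n * A + n ^ 2) % 8 = 0 := by
      rw [show n * A + n ^ 2 = n * (A + n) by ring, Nat.mul_mod, h10, Nat.mul_zero]
    omega
  · right; right
    have hcopxn : Nat.Coprime x n := by
      by_contra hc
      obtain ⟨p, hp, hpx, hpn⟩ := Nat.Prime.not_coprime_iff_dvd.1 hc
      exact hxn p hp hpx hpn
    have hcopA : Nat.Coprime A x := by
      rw [Nat.coprime_comm]
      by_contra hc
      obtain ⟨p, hp, hpx, hpA⟩ := Nat.Prime.not_coprime_iff_dvd.1 hc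
      apply hxy p hp hpx
      have h3 : p ∣ y ^ m := by rw [hAB]; exact dvd_mul_of_dvd_left hpA _
      exact hp.dvd_of_dvd_pow h3
    have hcop2 : Nat.Coprime x (2 * (A * B)) := by
      by_contra hc
      obtain ⟨p, hp, hpx, hp2⟩ := Nat.Prime.not_coprime_iff_dvd.1 hc
      rcases (Nat.Prime.dvd_mul hp).1 hp2 with h2 | h2
      · have : p = 2 := (Nat.prime_dvd_prime_iff_eq hp Nat.prime_two).1 h2
        subst this
        obtain ⟨w, hw⟩ := hxo
        omega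
      · apply hxy p hp hpx
        have h3 : p ∣ y ^ m := by
          rw [hAB, pow_two, ← mul_assoc]
          exact dvd_mul_of_dvd_left h2 _
        exact hp.dvd_of_dvd_pow h3
    have hcard : n1 ≤ (S (n * A)).card := by
      refine core1 (n := n * A) (e := n) (x := x) (A := (A : ℤ)) (B := (B : ℤ)) ?_ (by omega)
        (by omega) ⟨A, rfl⟩ ?_ ?_ ?_ hn1 hk ?_
      · calc 2 ≤ n := hn
          _ ≤ n * A := Nat.le_mul_of_pos_right n hA0
      · have h1 : (x : ℤ) ^ n = (A : ℤ) * B ^ 2 + n := by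
          have := h
          rw [hAB] at this
          exact_mod_cast this
        rw [h1]
        push_cast
        ring
      · exact Nat.isCoprime_iff_coprime.2 hcopA
      · have := Nat.isCoprime_iff_coprime.2 hcop2
        push_cast at this ⊢
        exact this
      · intro q hq hqn hqB
        have h2 : q ∣ B := by exact_mod_cast hqB
        have h3 : q ∣ y ^ m := by rw [hAB]; exact dvd_mul_of_dvd_right (dvd_pow h2 two_ne_zero) _
        have h4 : q ∣ x ^ n := by rw [h]; exact dvd_add h3 hqn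
        exact hxn q hq (hq.dvd_of_dvd_pow h4) hqn
    have h2 : 2 ≤ n * A := hn.trans (Nat.le_mul_of_pos_right n hA0)
    have h1 := card_S_le (N := n * A) (by omega)
    refine ⟨hxo, hcopxn, lt_of_le_of_lt hcard (card_S h2), ?_⟩
    refine le_trans (by exact_mod_cast hcard) (h1.trans (le_of_eq ?_))
    push_cast
    rfl

/-- **Result.**  Let `x, n, y, m ≥ 2`, `m` odd, `x ^ n - n = y ^ m`, `n = 2 ^ k n₁` with `n₁` odd,
and `y = A w ^ 2`.  Then one of the following holds: `x` is even, `n` is odd and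
`n A ≡ 7 (mod 8)`; or `n = p ^ (m e) n'` with a prime `p ∣ x`, `p ∤ n'` and `e ≥ 1`; or `x` is odd and
prime to `n`, `n₁ < n A` and `n₁ ≤ √(4 n A / 3) (1 + log (4 n A / 3) / 2) ^ 2`. -/
theorem result (x n y m A w k n1 : ℕ) (hx : 2 ≤ x) (hn : 2 ≤ n) (hy : 2 ≤ y) (hm : Odd m)
    (h : x ^ n = y ^ m + n) (hA : y = A * w ^ 2) (hn1 : Odd n1) (hk : n = 2 ^ k * n1) :
    (Even x ∧ Odd n ∧ n * A % 8 = 7) ∨
      (∃ p e n' : ℕ, p.Prime ∧ p ∣ x ∧ 1 ≤ e ∧ n = p ^ (m * e) * n' ∧ ¬ p ∣ n') ∨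
      (Odd x ∧ Nat.Coprime x n ∧ n1 < n * A ∧
        (n1 : ℝ) ≤ Real.sqrt (4 * (n * A) / 3) * (1 + Real.log (4 * (n * A) / 3) / 2) ^ 2) := by
  obtain ⟨r, hr⟩ := hm
  refine key (B := A ^ r * w ^ m) hx hn hy (by omega) h ?_ hn1 hk
  rw [hA, mul_pow, mul_pow, ← pow_mul, ← pow_mul, ← pow_mul, mul_comm m 2, ← mul_assoc]
  congr 1
  rw [hr]
  ring

end Pool.Agent.Results.MP_6050fa_nt.OddExponent
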