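import Pool.Agent.Lib_MP_6050fa.Gap
import Pool.Agent.Lib_MP_6050fa.Runge
import Pool.Agent.Lib_MP_6050fa.Small

/-!
# MP_6050fa_nt: the exponents `n` for which `X ^ n - n` or `X ^ n + n` is reducible

`x ^ n - ε n = y ^ m`, `ε = ± 1`, has no solutions with `x, y, m ≥ 2` if `ε n = s ^ q` with a prime
`q ∣ n`, or `ε n = - 4 r ^ 4` (Capelli's condition for `X ^ n - ε n` to be reducible).

* `m` and `n` are coprime (`coprime_exponents`).  `y ^ m = X ^ q - σ ^ q` with `X = x ^ (n / q)`, `σ = ± s`, and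
  the factor `X - σ` is an `m`-th power `u ^ m` (`first_factor`).
* `m > q`: a gap argument (`caseA_pos`, `caseA_neg`).
* `m < q`: Runge's method with the binomial series of `(u ^ m + σ) ^ (q / m)` (`caseB`; `case32` for
  `q = 3`, `m = 2`).
* `ε n = - 4 r ^ 4`: the two factors of `X ^ 4 + 4 r ^ 4` (`sophie_germain`).
-/

namespace Pool.Agent.Results.MP_6050fa_nt.ReducibleCase

open Pool.Agent.Lib_MP_6050fa

theorem eq1 {x y m s q : ℕ} (hx : 2 ≤ x) (hy : 2 ≤ y) (hm : 2 ≤ m) (hs : 0 < s) (hq : q.Prime)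
    (hqs : q ∣ s) (h : x ^ (s ^ q) = y ^ m + s ^ q) : False := by
  have hle : q ≤ s := Nat.le_of_dvd hs hqs
  have hq2 := hq.two_le
  have hn : 2 ≤ s ^ q := by
    calc 2 ≤ s := by omega
      _ ≤ s ^ q := Nat.le_self_pow (by omega) s
  have hcop := coprime_exponents hx hn hy hm (Or.inl h)
  have hqn : q ∣ s ^ q := dvd_pow hqs (by omega)
  have hqm : Nat.Coprime m q := hcop.coprime_dvd_right hqn
  obtain ⟨k, hk'⟩ := hqn
  have hk : k * q = s ^ q := by rw [hk', mul_comm]
  have hmq : m ≠ q := by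
    rintro rfl
    have := (Nat.coprime_self m).1 hqm
    omega
  by_cases hne : q = 2 ∧ s = 2
  · obtain ⟨rfl, rfl⟩ := hne
    have hm3 : 3 ≤ m := by omega
    exact case4 hx (by omega) hm3 hqm h
  · have hsz := size1 hq hqs hs hk hne
    have hX : 2 ^ k ≤ x ^ k := Nat.pow_le_pow_left hx k
    obtain ⟨a, ha⟩ : ∃ a, x ^ k = a + s := ⟨x ^ k - s, by omega⟩
    have ha0 : 0 < a := by omega
    have haZ : (x : ℤ) ^ k = a + s := by exact_mod_cast ha
    have hpow : x ^ (s ^ q) = (x ^ k) ^ q := by rw [← hk, pow_mul]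
    rw [hpow] at h
    have hZ : (y : ℤ) ^ m = ((x : ℤ) ^ k) ^ q - (s : ℤ) ^ q := by
      have h1 : ((x : ℤ) ^ k) ^ q = (y : ℤ) ^ m + (s : ℤ) ^ q := by exact_mod_cast h
      linarith
    obtain ⟨u, hu⟩ := first_factor (x := x) (k := k) (σ := (s : ℤ)) hq hqs hs hk
      (Int.natAbs_natCast s) (by omega) hqm ha0 (by rw [haZ]; ring) hZ
    rcases lt_or_gt_of_ne hmq with hlt | hgt
    · have hZ2 : (y : ℤ) ^ m = ((u : ℤ) ^ m + s) ^ q - (s : ℤ) ^ q := by
        rw [hZ, haZ, hu]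
        push_cast
        rfl
      rcases Nat.lt_or_ge q 5 with h5 | h5
      · have h3 : q = 3 := by
          have h4 : q ≠ 4 := by
            rintro rfl
            exact absurd hq (by norm_num)
          omega
        subst h3
        have hm2 : m = 2 := by omega
        subst hm2
        have hsz4 : s ^ 4 + s < 2 ^ k := hsz
        refine case32 (s := s) (by omega) (Int.natAbs_natCast s) ?_ hZ2
        rw [← hu]
        omega
      · have hsz3 := size3 h5 hle hk
        refine caseB hq h5 hm hlt hle (Int.natAbs_natCast s) ?_ hZ2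
        rw [← hu]
        omega
    · refine caseA_pos (s := s) (u := u) (y := y) hq2 hle hgt ?_ ?_
      · rw [← hu]
        omega
      · rw [← hu, ← ha, h]

theorem eq2 {x y m s q : ℕ} (hx : 2 ≤ x) (hy : 2 ≤ y) (hm : 2 ≤ m) (hs : 0 < s) (hq : q.Prime)
    (hodd : q ≠ 2) (hqs : q ∣ s) (h : x ^ (s ^ q) + s ^ q = y ^ m) : False := by
  have hle : q ≤ s := Nat.le_of_dvd hs hqs
  have hq2 := hq.two_le
  have hn : 2 ≤ s ^ q := by
    calc 2 ≤ s := by omega
      _ ≤ s ^ q := Nat.le_self_pow (by omega) s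
  have hcop := coprime_exponents hx hn hy hm (Or.inr h)
  have hqn : q ∣ s ^ q := dvd_pow hqs (by omega)
  have hqm : Nat.Coprime m q := hcop.coprime_dvd_right hqn
  obtain ⟨k, hk'⟩ := hqn
  have hk : k * q = s ^ q := by rw [hk', mul_comm]
  have hmq : m ≠ q := by
    rintro rfl
    have := (Nat.coprime_self m).1 hqm
    omega
  have hsz := size1 hq hqs hs hk (fun h => hodd h.1)
  have hX : 2 ^ k ≤ x ^ k := Nat.pow_le_pow_left hx k
  have hoddq : Odd q := hq.odd_of_ne_two hodd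
  obtain ⟨a, ha⟩ : ∃ a, a = x ^ k + s := ⟨_, rfl⟩
  have ha0 : 0 < a := by omega
  have haZ : (a : ℤ) = (x : ℤ) ^ k - (-(s : ℤ)) := by
    rw [ha]
    push_cast
    ring
  have hpow : x ^ (s ^ q) = (x ^ k) ^ q := by rw [← hk, pow_mul]
  rw [hpow] at h
  have hZ : (y : ℤ) ^ m = ((x : ℤ) ^ k) ^ q - (-(s : ℤ)) ^ q := by
    have h1 : ((x : ℤ) ^ k) ^ q + (s : ℤ) ^ q = (y : ℤ) ^ m := by exact_mod_cast h
    rw [hoddq.neg_pow]
    linarith
  obtain ⟨u, hu⟩ := first_factor (x := x) (k := k) (σ := -(s : ℤ)) hq hqs hs hk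
    (by rw [Int.natAbs_neg, Int.natAbs_natCast]) (by omega) hqm ha0 haZ hZ
  have hxk : (x : ℤ) ^ k = (u : ℤ) ^ m + (-(s : ℤ)) := by
    have h1 : ((u ^ m : ℕ) : ℤ) = (x : ℤ) ^ k + s := by
      rw [← hu, ha]
      push_cast
      ring
    push_cast at h1
    linarith
  rcases lt_or_gt_of_ne hmq with hlt | hgt
  · have hZ2 : (y : ℤ) ^ m = ((u : ℤ) ^ m + (-(s : ℤ))) ^ q - (-(s : ℤ)) ^ q := by
      rw [hZ, hxk]
    rcases Nat.lt_or_ge q 5 with h5 | h5
    · have h3 : q = 3 := by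
        have h4 : q ≠ 4 := by
          rintro rfl
          exact absurd hq (by norm_num)
        omega
      subst h3
      have hm2 : m = 2 := by omega
      subst hm2
      have hsz4 : s ^ 4 + s < 2 ^ k := hsz
      refine case32 (s := s) (by omega) (by rw [Int.natAbs_neg, Int.natAbs_natCast]) ?_ hZ2
      rw [← hu]
      omega
    · have hsz3 := size3 h5 hle hk
      refine caseB hq h5 hm hlt hle (by rw [Int.natAbs_neg, Int.natAbs_natCast]) ?_ hZ2
      rw [← hu]
      omega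
  · refine caseA_neg (s := s) (u := u) (y := y) (by omega) hle hgt ?_ ?_ ?_
    · rw [← hu]
      omega
    · rw [← hu]
      omega
    · rw [← hu, ha, Nat.add_sub_cancel, h]

/-- **Result.**  Let `x, n, y, m ≥ 2` and `ε = ± 1`.  If `ε n = s ^ q` with an integer `s` and a
prime `q` dividing `n`, or `ε n = - 4 r ^ 4` with an integer `r`, then `x ^ n - ε n ≠ y ^ m`. -/
theorem result (x n y m : ℕ) (ε : ℤ) (hx : 2 ≤ x) (hn : 2 ≤ n) (hy : 2 ≤ y) (hm : 2 ≤ m)
    (hε : ε = 1 ∨ ε = -1)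
    (h : (∃ (q : ℕ) (s : ℤ), q.Prime ∧ q ∣ n ∧ ε * n = s ^ q) ∨ ∃ r : ℤ, ε * n = -4 * r ^ 4) :
    (x : ℤ) ^ n - ε * n ≠ (y : ℤ) ^ m := by
  intro heq
  have hn0 : (0 : ℤ) < n := by exact_mod_cast (by omega : 0 < n)
  rcases hε with rfl | rfl
  · rw [one_mul] at h heq
    have heq' : x ^ n = y ^ m + n := by
      have h1 : (x : ℤ) ^ n = (y : ℤ) ^ m + n := by linarith
      exact_mod_cast h1
    rcases h with ⟨q, s, hq, hqn, hs⟩ | ⟨r, hr⟩
    · have hns : n = s.natAbs ^ q := by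
        have h1 := congrArg Int.natAbs hs
        rwa [Int.natAbs_natCast, Int.natAbs_pow] at h1
      rw [hns] at hqn hn heq'
      have hs0 : 0 < s.natAbs := Nat.pos_of_ne_zero (fun h1 => by
        rw [h1, zero_pow hq.ne_zero] at hn
        omega)
      exact eq1 hx hy hm hs0 hq (hq.dvd_of_dvd_pow hqn) heq'
    · have h1 : 0 ≤ r ^ 4 := by positivity
      linarith
  · have heq' : x ^ n + n = y ^ m := by
      have h1 : (x : ℤ) ^ n + n = (y : ℤ) ^ m := by linarith
      exact_mod_cast h1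
    rcases h with ⟨q, s, hq, hqn, hs⟩ | ⟨r, hr⟩
    · have hq2 : q ≠ 2 := by
        rintro rfl
        have h1 : 0 ≤ s ^ 2 := by positivity
        linarith
      have hns : n = s.natAbs ^ q := by
        have h1 := congrArg Int.natAbs hs
        rwa [neg_one_mul, Int.natAbs_neg, Int.natAbs_natCast, Int.natAbs_pow] at h1
      rw [hns] at hqn hn heq'
      have hs0 : 0 < s.natAbs := Nat.pos_of_ne_zero (fun h1 => by
        rw [h1, zero_pow hq.ne_zero] at hn
        omega)
      exact eq2 hx hy hm hs0 hq hq2 (hq.dvd_of_dvd_pow hqn) heq'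
    · have hnr : n = 4 * r.natAbs ^ 4 := by
        have h1 : (n : ℤ) = 4 * r ^ 4 := by linarith
        have h2 := congrArg Int.natAbs h1
        rwa [Int.natAbs_natCast, Int.natAbs_mul, Int.natAbs_pow] at h2
      have hr0 : 0 < r.natAbs := Nat.pos_of_ne_zero (fun h1 => by
        rw [h1] at hnr
        norm_num at hnr
        omega)
      rw [hnr] at heq'
      exact sophie_germain hx hr0 hy hm heq'

end Pool.Agent.Results.MP_6050fa_nt.ReducibleCase
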